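import Pool.Agent.Helper57.KE.St2

/-! Project KF, module ABE: Abel summation. -/

set_option autoImplicit false

open scoped BigOperators
open Finset

namespace Pool.Agent.Helper74.KE

open Pool.Agent.Helper57.KE Pool.Agent.Helper57.KR Pool.Agent.Helper65.RG

private theorem abel (v w : ℕ → ℝ) (m : ℕ) :
    ∑ i ∈ range m, v i * w i =
      ∑ i ∈ range m, (∑ j ∈ range (i + 1), v j) * (w i - w (i + 1)) +
        (∑ j ∈ range m, v j) * w m := by
  induction m with
  | zero => simp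
  | succ m ih =>
    rw [sum_range_succ, ih, sum_range_succ _ m, sum_range_succ v m]
    ring

private theorem dif (q : ℝ) (hq : 0 ≤ q) (k : ℝ) (hk : 0 < k) :
    k ^ (-q) - (k + 1) ^ (-q) ≤ q * k ^ (-q - 1) := by
  have h3 : 0 < 1 + 1 / k := by positivity
  have h1 : (k + 1) ^ (-q) = k ^ (-q) * (1 + 1 / k) ^ (-q) := by
    rw [← Real.mul_rpow hk.le h3.le]
    congr 1
    field_simp
  have h2 : 1 - q / k ≤ (1 + 1 / k) ^ (-q) := by
    rw [Real.rpow_def_of_pos h3]
    have h4 : Real.log (1 + 1 / k) ≤ 1 / k := by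
      have := Real.log_le_sub_one_of_pos h3
      linarith
    have h5 := Real.add_one_le_exp (Real.log (1 + 1 / k) * (-q))
    have h6 : q * Real.log (1 + 1 / k) ≤ q * (1 / k) := mul_le_mul_of_nonneg_left h4 hq
    have e : q * (1 / k) = q / k := by ring
    linarith
  have h6 : k ^ (-q - 1) = k ^ (-q) / k := by rw [Real.rpow_sub_one hk.ne']
  rw [h1, h6]
  have h7 : 0 < k ^ (-q) := Real.rpow_pos_of_pos hk _
  calc k ^ (-q) - k ^ (-q) * (1 + 1 / k) ^ (-q) = k ^ (-q) * (1 - (1 + 1 / k) ^ (-q)) := by ring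
    _ ≤ k ^ (-q) * (q / k) := mul_le_mul_of_nonneg_left (by linarith) h7.le
    _ = q * (k ^ (-q) / k) := by ring

theorem hABE : StABE := by
  intro p η hp hη hpη
  have hf : Summable (fun i : ℕ => ((i : ℝ) + 1) ^ (p - 2 + η)) := by
    have h := (summable_nat_add_iff 1).2
      (Real.summable_nat_rpow.2 (by linarith : p - 2 + η < -1))
    simpa using h
  have hf0 : ∀ i : ℕ, 0 ≤ ((i : ℝ) + 1) ^ (p - 2 + η) := fun i => by positivity
  have hT : 0 ≤ ∑' i : ℕ, ((i : ℝ) + 1) ^ (p - 2 + η) := tsum_nonneg hf0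
  refine ⟨3 * ∑' i : ℕ, ((i : ℝ) + 1) ^ (p - 2 + η) + 1, by linarith, ?_⟩
  intro v A hv hS m
  have hA : 0 ≤ A := by
    have h := hS 1 le_rfl
    simp only [range_one, sum_singleton, Nat.cast_one, Real.one_rpow, mul_one] at h
    exact (hv 0).trans h
  rw [abel v (fun i : ℕ => ((i : ℝ) + 1) ^ (2 * p - 3)) m]
  have h1 : ∑ i ∈ range m, (∑ j ∈ range (i + 1), v j) *
      (((i : ℝ) + 1) ^ (2 * p - 3) - (((i + 1 : ℕ) : ℝ) + 1) ^ (2 * p - 3)) ≤
      3 * A * ∑' i : ℕ, ((i : ℝ) + 1) ^ (p - 2 + η) := by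
    calc ∑ i ∈ range m, (∑ j ∈ range (i + 1), v j) *
        (((i : ℝ) + 1) ^ (2 * p - 3) - (((i + 1 : ℕ) : ℝ) + 1) ^ (2 * p - 3)) ≤
        ∑ i ∈ range m, 3 * A * ((i : ℝ) + 1) ^ (p - 2 + η) := by
          refine sum_le_sum (fun i _ => ?_)
          have hk : (0 : ℝ) < (i : ℝ) + 1 := by positivity
          have h2 := hS (i + 1) (by omega)
          push_cast at h2
          have h3 := dif (3 - 2 * p) (by linarith) ((i : ℝ) + 1) hk
          have e1 : -(3 - 2 * p) = 2 * p - 3 := by ring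
          rw [e1] at h3
          have h4 : ((i : ℝ) + 1) ^ (2 * p - 3) - (((i + 1 : ℕ) : ℝ) + 1) ^ (2 * p - 3) ≤
              3 * ((i : ℝ) + 1) ^ (2 * p - 3 - 1) := by
            push_cast
            refine h3.trans ?_
            exact mul_le_mul_of_nonneg_right (by linarith) (Real.rpow_nonneg hk.le _)
          have h5 : 0 ≤ ∑ j ∈ range (i + 1), v j := sum_nonneg (fun j _ => hv j)
          calc (∑ j ∈ range (i + 1), v j) *
              (((i : ℝ) + 1) ^ (2 * p - 3) - (((i + 1 : ℕ) : ℝ) + 1) ^ (2 * p - 3)) ≤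
              (∑ j ∈ range (i + 1), v j) * (3 * ((i : ℝ) + 1) ^ (2 * p - 3 - 1)) :=
                mul_le_mul_of_nonneg_left h4 h5
            _ ≤ A * ((i : ℝ) + 1) ^ (2 - p + η) * (3 * ((i : ℝ) + 1) ^ (2 * p - 3 - 1)) :=
                mul_le_mul_of_nonneg_right h2 (by positivity)
            _ = 3 * A * (((i : ℝ) + 1) ^ (2 - p + η) * ((i : ℝ) + 1) ^ (2 * p - 3 - 1)) := by ring
            _ = 3 * A * ((i : ℝ) + 1) ^ (p - 2 + η) := by
                rw [← Real.rpow_add hk]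
                congr 2
                ring
      _ = 3 * A * ∑ i ∈ range m, ((i : ℝ) + 1) ^ (p - 2 + η) := by rw [mul_sum]
      _ ≤ 3 * A * ∑' i : ℕ, ((i : ℝ) + 1) ^ (p - 2 + η) := by
          refine mul_le_mul_of_nonneg_left ?_ (by linarith)
          exact hf.sum_le_tsum _ (fun i _ => hf0 i)
  have h2 : (∑ j ∈ range m, v j) * ((m : ℝ) + 1) ^ (2 * p - 3) ≤ A := by
    rcases Nat.eq_zero_or_pos m with hm | hm
    · subst hm
      simpa using hA
    · have hk : (0 : ℝ) < (m : ℝ) + 1 := by positivity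
      have h3 := hS m hm
      have h4 : (m : ℝ) ^ (2 - p + η) ≤ ((m : ℝ) + 1) ^ (2 - p + η) :=
        Real.rpow_le_rpow (Nat.cast_nonneg m) (by linarith) (by linarith)
      have h5 : ((m : ℝ) + 1) ^ (2 - p + η) * ((m : ℝ) + 1) ^ (2 * p - 3) ≤ 1 := by
        rw [← Real.rpow_add hk]
        exact Real.rpow_le_one_of_one_le_of_nonpos
          (by have : (0 : ℝ) ≤ m := Nat.cast_nonneg m
              linarith) (by linarith)
      calc (∑ j ∈ range m, v j) * ((m : ℝ) + 1) ^ (2 * p - 3) ≤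
          A * ((m : ℝ) + 1) ^ (2 - p + η) * ((m : ℝ) + 1) ^ (2 * p - 3) := by
            refine mul_le_mul_of_nonneg_right ?_ (Real.rpow_nonneg hk.le _)
            exact h3.trans (mul_le_mul_of_nonneg_left h4 hA)
        _ = A * (((m : ℝ) + 1) ^ (2 - p + η) * ((m : ℝ) + 1) ^ (2 * p - 3)) := by ring
        _ ≤ A * 1 := mul_le_mul_of_nonneg_left h5 hA
        _ = A := mul_one A
  have h3 : (3 * ∑' i : ℕ, ((i : ℝ) + 1) ^ (p - 2 + η) + 1) * A =
      3 * A * ∑' i : ℕ, ((i : ℝ) + 1) ^ (p - 2 + η) + A := by ring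
  rw [h3]
  exact add_le_add h1 h2

end Pool.Agent.Helper74.KE
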